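import Pool.Agent.Lib.MP_570070_gt.Main
import Pool.Agent.Lib.MP_570070_gt.Free

namespace Pool.Agent.Lib.MP_570070_gt.Old.DetApproxFails

open Pool.Agent.Lib.MP_570070_gt Pool.Agent.Lib.MP_75c153_gt

/-- Let `G` be a countable residually finite HNN extension of `B` along `φ : A ≃ A'` such that
some non-injective homomorphism `B → G` agrees with the inclusion on `A` and on `A'`. Then some
`a ∈ ℤG` has Fuglede-Kadison determinant at least `2`, while along suitable residual chains of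
finite index normal subgroups the determinants of its images stay in `[1, exp ε]`. -/
theorem det_fails {B : Type} [Group B] {A A' : Subgroup B} (φ : A ≃* A')
    [Countable (HNNExtension B A A' φ)] [Group.ResiduallyFinite (HNNExtension B A A' φ)]
    (r : B →* HNNExtension B A A' φ) (hA : ∀ b ∈ A, r b = HNNExtension.of b)
    (hA' : ∀ b ∈ A', r b = HNNExtension.of b) (hr : ¬ Function.Injective r) :
    ∃ (a : MonoidAlgebra ℤ (HNNExtension B A A' φ)) (v : ℝ), IsLogDet a v ∧ Real.log 2 ≤ v ∧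
      ∀ ε > 0, ∃ (N : ℕ → Subgroup (HNNExtension B A A' φ)) (_ : ∀ n, (N n).Normal),
        (∀ n, (N n).FiniteIndex) ∧ N 0 = ⊤ ∧ Antitone N ∧ ⨅ n, N n = ⊥ ∧
        ∀ n, ∃ w : ℝ, IsLogDet (MonoidAlgebra.mapDomain (QuotientGroup.mk' (N n)) a) w ∧
          0 ≤ w ∧ w ≤ ε := by
  obtain ⟨y, hy, hy1⟩ : ∃ y, r y = 1 ∧ y ≠ 1 := by
    by_contra h
    exact hr ((injective_iff_map_eq_one r).2 fun y hy => by_contra fun h1 => h ⟨y, hy, h1⟩)
  have hr' : ∀ b, b ∈ A ∨ b ∈ A' → r b = HNNExtension.of b := fun b hb => hb.elim (hA b) (hA' b)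
  have hyA : ¬ (y ∈ A ∨ y ∈ A') := fun h => hy1 (HNNExtension.of_injective φ (by
    rw [← hr' y h, hy, map_one]))
  obtain ⟨Y, hY, hd⟩ := exists_pong φ (fun h => hyA (Or.inl h)) fun h => hyA (Or.inr h)
  obtain ⟨S, -, -, hS1, hS2⟩ := exists_chain r hr' hy one_lt_two
  obtain ⟨v, hv, hv2⟩ := exists_logDet S hS1 hS2 (gap (x := HNNExtension.t) Y hY hd)
  refine ⟨_, v, hv, hv2, fun ε hε => ?_⟩
  set c := l1 (elt HNNExtension.t (cj φ y) * bar (elt HNNExtension.t (cj φ y)) *
    (elt HNNExtension.t (cj φ y) * bar (elt HNNExtension.t (cj φ y))) -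
    elt HNNExtension.t (cj φ y) * bar (elt HNNExtension.t (cj φ y))) with hc
  have hc0 : 0 ≤ c := l1_nonneg _
  have hδ : 0 < ε / (c + 1) := by positivity
  obtain ⟨T, h0, h1, h2, h3⟩ := exists_chain r hr' hy (β := 1 + ε / (c + 1)) (by linarith)
  refine ⟨fun n => (T n).π.ker, inferInstance, fun n => inferInstance, h1, h2, h3, fun n => ?_⟩
  obtain ⟨w, hw, hw0, hw1⟩ := (T n).logDet_le (h0 n)
  refine ⟨w, hw, hw0, hw1.trans ?_⟩
  have : c * (ε / (c + 1)) ≤ ε := by
    rw [← mul_div_assoc, div_le_iff₀ (by positivity)]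
    nlinarith
  rw [← hc]
  linarith

/-- The hypotheses hold for the free product of any non-trivial countable residually finite group
`B` with the infinite cyclic group (`A = A' = 1`, `r` trivial). -/
theorem hypotheses_freeProduct {B : Type} [Group B] [Countable B] (hB : ∃ a b : B, a ≠ b)
    [Group.ResiduallyFinite B] (φ : (⊥ : Subgroup B) ≃* (⊥ : Subgroup B)) :
    Countable (HNNExtension B ⊥ ⊥ φ) ∧ Group.ResiduallyFinite (HNNExtension B ⊥ ⊥ φ) ∧
      (∀ b ∈ (⊥ : Subgroup B), (1 : B →* HNNExtension B ⊥ ⊥ φ) b = HNNExtension.of b) ∧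
      ¬ Function.Injective (1 : B →* HNNExtension B ⊥ ⊥ φ) := by
  refine ⟨hnn_countable φ, free_residuallyFinite φ, fun b hb => ?_, fun h => ?_⟩
  · rw [Subgroup.mem_bot.1 hb, map_one, map_one]
  · obtain ⟨a, b, hab⟩ := hB
    exact hab (h rfl)

/-- In particular they hold for an infinite cyclic group `B`, where the HNN extension is free of
rank two. -/
theorem hypotheses_int : ∃ (B : Type) (_ : Group B) (g : B), (∀ b, ∃ n : ℤ, b = g ^ n) ∧
    (∀ n : ℤ, g ^ n = 1 → n = 0) ∧ Countable B ∧ Group.ResiduallyFinite B :=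
  ⟨Multiplicative ℤ, inferInstance, Multiplicative.ofAdd 1,
    fun b => ⟨b.toAdd, by rw [← ofAdd_zsmul]; simp⟩,
    fun n h => by simpa [← ofAdd_zsmul] using h, inferInstance, int_residuallyFinite⟩

end Pool.Agent.Lib.MP_570070_gt.Old.DetApproxFails
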